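import Mathlib

set_option autoImplicit false

namespace Pool.Agent.Results.MP_615e1a_lc.TwoSuffices

open FirstOrder

universe u v w

/-- A set of finite sets is a sunflower: any two distinct members have the same intersection. -/
def Sunflower {X : Type w} (S : Set (Finset X)) : Prop :=
  ∃ r : Set X, ∀ p ∈ S, ∀ q ∈ S, p ≠ q → (p : Set X) ∩ (q : Set X) = r

/-- `M` is `n`-sunflowerable: every copy of `M` whose elements are `n`-element sets has a
substructure isomorphic to it whose underlying set is a sunflower. -/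
def Sunflowerable (L : FirstOrder.Language.{u, v}) (M : Type w) [L.Structure M] (n : ℕ) : Prop :=
  ∀ (X : Type w) (Y : Set (Finset X)) [L.Structure Y], (∀ y ∈ Y, y.card = n) →
    Nonempty (L.Equiv Y M) →
    ∃ Z : L.Substructure Y, Nonempty (L.Equiv Z Y) ∧ Sunflower (Subtype.val '' (Z : Set Y))

variable {L : FirstOrder.Language.{u, v}} {M : Type w} [L.Structure M]

theorem two_emb (h : Sunflowerable L M 2) (X : Type w) (f : M → Finset X)
    (hf : Function.Injective f) (hc : ∀ m, (f m).card = 2) :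
    ∃ e : L.Embedding M M, ∃ r : Set X, ∀ m m', m ≠ m' → (f (e m) : Set X) ∩ f (e m') = r := by
  let g : M ≃ Set.range f := Equiv.ofInjective f hf
  letI : L.Structure (Set.range f) := g.inducedStructure
  let g' : L.Equiv M (Set.range f) := g.inducedStructureEquiv
  obtain ⟨Z, ⟨k⟩, r, hr⟩ := h X (Set.range f) (by rintro _ ⟨m, rfl⟩; exact hc m) ⟨g'.symm⟩
  let e : L.Embedding M M :=
    g'.symm.toEmbedding.comp (Z.subtype.comp (k.symm.toEmbedding.comp g'.toEmbedding))
  have he : ∀ m, f (e m) = (k.symm (g' m)).1.1 := fun m =>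
    congrArg Subtype.val (g.apply_symm_apply (k.symm (g' m)).1)
  refine ⟨e, r, fun m m' hne => hr _ ⟨_, (k.symm (g' m)).2, (he m).symm⟩ _
    ⟨_, (k.symm (g' m')).2, (he m').symm⟩ fun h => hne (e.injective (hf h))⟩

theorem tasks {ι : Type} [Finite ι] (P : ι → L.Embedding M M → Prop)
    (h1 : ∀ i (e e' : L.Embedding M M), P i e → P i (e.comp e')) (e₀ : L.Embedding M M)
    (h2 : ∀ i (e : L.Embedding M M), ∃ e' : L.Embedding M M, P i ((e₀.comp e).comp e')) :
    ∃ e : L.Embedding M M, ∀ i, P i (e₀.comp e) := by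
  have key : ∀ s : Set ι, s.Finite → ∃ e : L.Embedding M M, ∀ i ∈ s, P i (e₀.comp e) := by
    intro s hs
    induction s, hs using Set.Finite.induction_on with
    | empty => exact ⟨FirstOrder.Language.Embedding.refl L M, fun _ h => h.elim⟩
    | @insert i s _ _ ih =>
      obtain ⟨e, he⟩ := ih
      obtain ⟨e', he'⟩ := h2 i e
      refine ⟨e.comp e', ?_⟩
      rintro j (rfl | hj)
      · exact he'
      · exact h1 j _ e' (he j hj)
  obtain ⟨e, he⟩ := key Set.univ Set.finite_univ
  exact ⟨e, fun i => he i trivial⟩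

theorem canon (h : Sunflowerable L M 2) {X : Type w} (x : M → X) :
    ∃ e : L.Embedding M M, (∀ m m', x (e m) = x (e m')) ∨ Function.Injective fun m => x (e m) := by
  classical
  obtain ⟨e, r, hr⟩ := two_emb h (X ⊕ M) (fun m => {Sum.inl (x m), Sum.inr m}) (by
    intro m m' h
    beta_reduce at h
    have : (Sum.inr m : X ⊕ M) ∈ ({Sum.inl (x m'), Sum.inr m'} : Finset (X ⊕ M)) := by
      rw [← h]; simp
    simpa using this) fun m => Finset.card_pair (by simp)
  refine ⟨e, ?_⟩
  by_cases hi : Function.Injective fun m => x (e m)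
  · exact Or.inr hi
  · left
    obtain ⟨a, b, h1, h2⟩ := Function.not_injective_iff.1 hi
    have h3 : Sum.inl (x (e a)) ∈ r := by
      rw [← hr a b h2]
      simp [show x (e a) = x (e b) from h1]
    intro m m'
    by_cases e1 : m = m'
    · rw [e1]
    · rw [← hr m m' e1] at h3
      simp only [Finset.coe_insert, Finset.coe_singleton, Set.mem_inter_iff, Set.mem_insert_iff,
        Sum.inl.injEq, Set.mem_singleton_iff, reduceCtorEq, or_false] at h3
      exact h3.1.symm.trans h3.2

theorem apart [Infinite M] (h : Sunflowerable L M 2) {X : Type w} [LinearOrder X] (x y : M → X)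
    (hx : Function.Injective x) (hy : Function.Injective y) (hlt : ∀ m, x m < y m) :
    ∃ e : L.Embedding M M, ∀ m m', x (e m) ≠ y (e m') := by
  obtain ⟨e, r, hr⟩ := two_emb h X (fun m => {x m, y m}) (by
    intro m m' h
    beta_reduce at h
    have h1 : x m ∈ ({x m', y m'} : Finset X) := by rw [← h]; simp
    have h2 : x m' ∈ ({x m, y m} : Finset X) := by rw [h]; simp
    simp only [Finset.mem_insert, Finset.mem_singleton] at h1 h2
    rcases h1 with h1 | h1
    · exact hx h1
    · rcases h2 with h2 | h2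
      · exact hx h2.symm
      · exact absurd ((hlt m').trans_eq h1.symm) (h2 ▸ (hlt m).asymm))
    fun m => Finset.card_pair (hlt m).ne
  refine ⟨e, fun m m' he => ?_⟩
  have hne : m ≠ m' := by
    rintro rfl
    exact (hlt _).ne he
  have h3 : x (e m) ∈ r := by
    rw [← hr m m' hne]
    simp [he]
  obtain ⟨a, ha⟩ := Infinite.exists_notMem_finset (by classical exact ({m, m'} : Finset M))
  simp only [Finset.mem_insert, Finset.mem_singleton, not_or] at ha
  rw [← hr a m ha.1] at h3
  have h4 := h3.1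
  simp only [Finset.coe_insert, Finset.coe_singleton, Set.mem_insert_iff,
    Set.mem_singleton_iff] at h4
  rcases h4 with h4 | h4
  · exact ha.1 (e.injective (hx h4)).symm
  · exact ha.2 (e.injective (hy (he.symm.trans h4))).symm

/-- Every `2`-sunflowerable infinite structure is sunflowerable. -/
theorem result (L : FirstOrder.Language.{u, v}) (M : Type w) [L.Structure M] [Infinite M]
    (h : Sunflowerable L M 2) (n : ℕ) : Sunflowerable L M n := by
  rintro X Y _ hY ⟨g⟩
  letI : LinearOrder X := IsWellOrder.linearOrder WellOrderingRel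
  let x : M → Fin n → X := fun m => (g.symm m).1.orderEmbOfFin (hY _ (g.symm m).2)
  have hx : ∀ m, ((g.symm m).1 : Set X) = Set.range (x m) := fun m =>
    (Finset.range_orderEmbOfFin _ _).symm
  obtain ⟨e₁, h1⟩ := tasks (fun (i : Fin n) (e : L.Embedding M M) =>
      (∀ m m', x (e m) i = x (e m') i) ∨ Function.Injective fun m => x (e m) i)
    (fun i e e' h => h.imp (fun h m m' => h _ _) fun h => h.comp e'.injective)
    (FirstOrder.Language.Embedding.refl L M) fun i e => canon h fun m => x (e m) i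
  obtain ⟨e₂, h2⟩ := tasks (fun (z : Fin n × Fin n) (e : L.Embedding M M) =>
      z.1 < z.2 → (Function.Injective fun m => x (e₁ m) z.1) →
        (Function.Injective fun m => x (e₁ m) z.2) → ∀ m m', x (e m) z.1 ≠ x (e m') z.2)
    (fun z e e' h a b c m m' => h a b c _ _) e₁ fun z e => by
      by_cases c : z.1 < z.2 ∧ (Function.Injective fun m => x (e₁ m) z.1) ∧
        Function.Injective fun m => x (e₁ m) z.2
      · obtain ⟨e', he'⟩ := apart h (fun m => x (e₁ (e m)) z.1) (fun m => x (e₁ (e m)) z.2)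
          (c.2.1.comp e.injective) (c.2.2.comp e.injective)
          fun m => ((g.symm _).1.orderEmbOfFin (hY _ (g.symm _).2)).strictMono c.1
        exact ⟨e', fun _ _ _ => he'⟩
      · exact ⟨e, fun a b d => absurd ⟨a, b, d⟩ c⟩
  let k : L.Embedding M Y := g.symm.toEmbedding.comp (e₁.comp e₂)
  refine ⟨k.toHom.range, ⟨g.symm.comp k.equivRange.symm⟩,
    {a | ∃ i, ∀ m, x (e₁ m) i = a}, ?_⟩
  rintro _ ⟨_, ⟨m, rfl⟩, rfl⟩ _ ⟨_, ⟨m', rfl⟩, rfl⟩ hne
  change (g.symm (e₁ (e₂ m))).1 ≠ (g.symm (e₁ (e₂ m'))).1 at hne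
  change ((g.symm (e₁ (e₂ m))).1 : Set X) ∩ (g.symm (e₁ (e₂ m'))).1 = _
  rw [hx, hx]
  ext a
  constructor
  · rintro ⟨⟨i, rfl⟩, j, hj⟩
    rcases h1 i with a1 | a1
    · exact ⟨i, fun b => a1 _ _⟩
    · rcases h1 j with a2 | a2
      · exact ⟨j, fun b => (a2 _ _).trans hj⟩
      · exfalso
        rcases lt_trichotomy i j with c | rfl | c
        · exact h2 (i, j) c a1 a2 m m' hj.symm
        · exact hne (by rw [show e₂ m' = e₂ m from a1 hj])
        · exact h2 (j, i) c a2 a1 m' m hj
  · rintro ⟨i, hi⟩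
    exact ⟨⟨i, hi _⟩, i, hi _⟩

end Pool.Agent.Results.MP_615e1a_lc.TwoSuffices
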